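import Pool.Agent.H79.KerFinal

/-!
# Independent set on triangle-free graphs has no linear vertex kernel unless `NP ⊆ coNP/poly`
-/

namespace Pool.Agent.Results.MP_ced634_lc.NoLinearKernel

open N68a2faeb TMLib ISTF KerMain

/-- **Result.** Unless `NP ⊆ coNP/poly`, independent set on triangle-free graphs parameterized by
the solution size `k` has no kernelization of order `O(k)`; more generally none of order
`O(k ^ e)` with `e < 21 / 20`, and no polynomial time compression to `O(k ^ e)` bits, into any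
language, with `e < 21 / 10`. -/
theorem result (h : ¬ NP ⊆ Poly coNP) :
    (¬ ∃ (K : Inst → Inst) (c : ℕ), IsKernelization K ∧
      ∀ I : Inst, I.Valid → (K I).n ≤ c * I.k + c) ∧
    (∀ a b c : ℕ, 20 * a < 21 * b → ¬ ∃ K : Inst → Inst, IsKernelization K ∧
      ∀ I : Inst, I.Valid → (K I).n ^ b ≤ c * I.k ^ a) ∧
    (∀ a b c : ℕ, 10 * a < 21 * b → ¬ ∃ (f : List Bool → List Bool) (B : Set (List Bool)),
      IsPolyTime f ∧ ∀ I : Inst, I.Valid → (f I.code ∈ B ↔ I.Yes) ∧
        (f I.code).length ^ b ≤ c * I.k ^ a) := by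
  have h2 : ∀ a b c : ℕ, 20 * a < 21 * b → ¬ ∃ K : Inst → Inst, IsKernelization K ∧
      ∀ I : Inst, I.Valid → (K I).n ^ b ≤ c * I.k ^ a := by
    rintro a b c hab ⟨K, hK, hK'⟩
    exact h (kernel_imp a b c hab K hK hK')
  refine ⟨?_, h2, ?_⟩
  · rintro ⟨K, c, hK, hK'⟩
    refine h2 1 1 (2 * c) (by norm_num) ⟨K, hK, fun I hI => ?_⟩
    have h3 := hK' I hI
    have h4 : c * 1 ≤ c * I.k := Nat.mul_le_mul_left _ hI.2
    rw [pow_one, pow_one]
    nlinarith
  · rintro a b c hab ⟨f, B, hf, hf'⟩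
    exact h (compress_imp f (ptime_of_isPolyTime hf) B a b c hab hf')

end Pool.Agent.Results.MP_ced634_lc.NoLinearKernel
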